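import Pool.Agent.H3.SB.PW
import Pool.Agent.H94.PC.Tup

set_option autoImplicit false

/-!
# [H3 SC Defs] Moments of the rank: definitions

For `z : SX Y → V k` (a label for each prime) `px Y z i v` is the product of the primes of `Y i` with the label `v`.
-/

namespace Pool.Agent.H3.SC

open Polynomial
open Pool.Agent.H94.PC
open Pool.Agent.H94.PS
open Pool.Agent.H94.PN (dotp)
open Pool.Agent.H74.SL (V q NotKilled)
open Pool.Agent.H3

section
variable {F : Type} [Field F] [Finite F] {k : ℕ}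

/-- the parts of the labelling `z` -/
noncomputable def px (Y : Fin 3 → F[X]) (z : SX Y → V k) (i : Fin 3) (v : V k) : F[X] :=
  part (Y i) (fun P => z ⟨i, P⟩) v

/-- `ph` for polynomials -/
noncomputable def phx (th : ZMod 2) (Y : Fin 3 → F[X]) (x : Fin 3 → V k → F[X]) : ZMod 2 :=
  ∑ i, ∑ v, (∑ j, ∑ v', (if i = j then 0 else
    (dotp v'.1 v.2 + th) * lam (x j v') (x i v)) +
      (q v + th) * lam (Y (i + 1)) (x i v))

theorem ph_eq {d : ℕ} (th : ZMod 2) (c : Fin 3 → F) (x : Fin 3 → V k → Mn F d) :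
    ph th c x = phx th (TY c x) (fun i v => (x i v).1) := rfl

/-- all triples of constants -/
noncomputable def CF (F : Type) [Finite F] : Finset (Fin 3 → F) := SA.FS fun _ => True

omit [Field F] in
theorem mem_CF (c : Fin 3 → F) : c ∈ CF F := SA.mem_FS.2 trivial

/-- the three vectors of the parities are equal -/
def Wx (x : Fin 3 → V k → F[X]) : Prop :=
  ∀ i, ∑ v, ((x i v).natDegree : ZMod 2) • v = ∑ v, ((x 0 v).natDegree : ZMod 2) • v

/-- the same for profiles -/
def Wc (π : Fin 3 → Pfl k) : Prop := ∀ i, ∑ v, (π i).dl v • v = ∑ v, (π 0).dl v • v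

/-- the number of primes -/
noncomputable def nY (Y : Fin 3 → F[X]) : ℕ := ∑ i, om (Y i)

open Classical in
/-- the typical members of the family -/
noncomputable def Tf (F : Type) [Field F] [Finite F] (d e : ℕ) : Finset (Fin 3 → F[X]) :=
  (Fam F d e).filter fun Y => Typ d Y

open Classical in
theorem mem_Tf {d e : ℕ} {Y : Fin 3 → F[X]} : Y ∈ Tf F d e ↔ Fm d e Y ∧ Typ d Y := by
  unfold Tf
  rw [Finset.mem_filter, mem_Fam]

/-- the moments -/
noncomputable def Em (F : Type) [Field F] [Finite F] (th : ZMod 2) (k d e : ℕ) : ℝ :=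
  ∑ Y ∈ Tf F d e, ((2 : ℝ) ^ k) ^ rkY Y * sg (th * (rkY Y : ZMod 2))

open Classical in
/-- the bound for the number of the bad triples -/
def BadBound (F : Type) [Field F] [Finite F] : Prop :=
  ∃ c : ℝ, 0 < c ∧ ∃ D : ℕ, ∀ d : ℕ, D ≤ d → Odd d → ∀ e : ℕ, 10 * e ≤ d →
    (((Tf F d e).filter fun Y => SB.Bad d Y).card : ℝ) ≤
      (d : ℝ) ^ (-c) * (Nat.card F : ℝ) ^ (2 * d)

end

/-- the sum over the labellings which are not killed -/
noncomputable def NS {F : Type} [Field F] [Finite F] {d : ℕ} {Y : Fin 3 → F[X]} (h : Tr d Y)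
    (th : ZMod 2) (k e : ℕ) : ℝ :=
  ∑ z ∈ SA.FS (fun z : SX Y → V k => z ∈ SA.WV (SB.frm h) k ∧ SB.NK th d e Y z),
    sg (SA.MV (SB.frm h) z + th * bf Y 1 1)

/-- the sum over the labellings which are killed -/
noncomputable def KS {F : Type} [Field F] [Finite F] {d : ℕ} {Y : Fin 3 → F[X]} (h : Tr d Y)
    (th : ZMod 2) (k e : ℕ) : ℝ :=
  ∑ z ∈ SA.FS (fun z : SX Y → V k => z ∈ SA.WV (SB.frm h) k ∧ ¬ SB.NK th d e Y z),
    sg (SA.MV (SB.frm h) z + th * bf Y 1 1)

end Pool.Agent.H3.SC
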