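import Pool.Agent.H3.SC.NKE
import Pool.Agent.H3.SB.ERR
import Pool.Agent.H3.SB.CRD
import Pool.Agent.H94.PC.MoMod

set_option autoImplicit false

/-!
# [H3 SC EST] The part that is not killed: the sum over the family

`card (Tf F d e) ≤ q ^ (2 (d + 1))` (`Y 0, Y 1 ∈ Lt F (d + 1)`, `Y 2 = - Y 0 - Y 1`).
* `est0`: `|∑ NYf 0 - Lk * card Tf| ≤ ∑_{Y ∈ Tf} |NYf 0 - Lk| ≤ err k d * card Tf + (errb k d + Lk 2 k) * #Bad` (`nke0`, `nke_all`) `≤ (err k d * q ^ 2 + (errb k d + Lk 2 k) * d ^ (-c)) q ^ (2 d)` (`BadBound`); `err_lim`, `errb_lim`, `d ^ (-c) → 0`.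
* `est1`: `nke1`, `err_lim`.
-/

namespace Pool.Agent.H3.SC

open Polynomial Filter
open Pool.Agent.H94.PC
open Pool.Agent.H94.PS
open Pool.Agent.H94.PN (Lk)
open Pool.Agent.H74.SL (V)
open Pool.Agent.H3
open Pool.Agent.H3.SB (Big Bad err errb)

variable {F : Type} [Field F] [Finite F]

open Classical in
/-- the normalised sum of one `Y` -/
noncomputable def NYf (th : ZMod 2) (k d e : ℕ) (Y : Fin 3 → F[X]) : ℝ :=
  if h : Tr d Y then NY h th k e else 0

theorem card_Tf (d e : ℕ) : ((Tf F d e).card : ℝ) ≤ (Nat.card F : ℝ) ^ (2 * (d + 1)) := by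
  classical
  have h : (Tf F d e).card ≤ (Lt F (d + 1) ×ˢ Lt F (d + 1)).card := by
    refine Finset.card_le_card_of_injOn (fun Y => (Y 0, Y 1)) ?_ ?_
    · intro Y hY
      have h1 := (mem_Tf.1 (Finset.mem_coe.1 hY)).1.1.deg
      rw [Finset.mem_coe, Finset.mem_product]
      constructor
      · rw [mem_Lt]
        refine lt_of_le_of_lt degree_le_natDegree ?_
        rw [h1 0]
        exact_mod_cast Nat.lt_succ_self d
      · rw [mem_Lt]
        refine lt_of_le_of_lt degree_le_natDegree ?_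
        rw [h1 1]
        exact_mod_cast Nat.lt_succ_self d
    · intro Y hY Y' hY' hYY
      have h1 := (mem_Tf.1 (Finset.mem_coe.1 hY)).1.1.sum
      have h2 := (mem_Tf.1 (Finset.mem_coe.1 hY')).1.1.sum
      simp only [Prod.mk.injEq] at hYY
      funext i
      fin_cases i
      · exact hYY.1
      · exact hYY.2
      · show Y 2 = Y' 2
        rw [← hYY.1, ← hYY.2] at h2
        exact add_left_cancel (h1.trans h2.symm)
  rw [Finset.card_product, card_Lt] at h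
  calc ((Tf F d e).card : ℝ) ≤ ((Nat.card F ^ (d + 1) * Nat.card F ^ (d + 1) : ℕ) : ℝ) := by
        exact_mod_cast h
    _ = (Nat.card F : ℝ) ^ (2 * (d + 1)) := by
        push_cast
        rw [← pow_add]
        congr 1
        ring

private theorem errb_nonneg (k d : ℕ) : 0 ≤ errb k d := by
  unfold errb
  positivity

private theorem err_nonneg (k d : ℕ) : 0 ≤ err k d := by
  unfold err
  refine mul_nonneg (errb_nonneg k d) (pow_nonneg ?_ _)
  have h1 : (1 : ℝ) ≤ 8 ^ k := one_le_pow₀ (by norm_num)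
  rw [sub_nonneg, div_le_one (by positivity)]
  exact h1

theorem est0 (hB : BadBound F) (k : ℕ) {δ : ℝ} (hδ : 0 < δ) : ∃ D : ℕ, ∀ d : ℕ, D ≤ d →
    Odd d → ∀ e : ℕ, 10 * e ≤ d →
      |∑ Y ∈ Tf F d e, NYf 0 k d e Y - (Lk 2 k : ℝ) * ((Tf F d e).card : ℝ)| ≤
        δ * (Nat.card F : ℝ) ^ (2 * d) := by
  classical
  obtain ⟨c, hc, D1, h1⟩ := hB
  obtain ⟨D3, h3⟩ := SB.big
  obtain ⟨q, hq⟩ : ∃ q : ℝ, q = (Nat.card F : ℝ) := ⟨_, rfl⟩
  have hq0 : 0 ≤ q := by rw [hq]; positivity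
  have hlim : Tendsto (fun d : ℕ => err k d * q ^ 2 +
      (errb k d * (d : ℝ) ^ (-c) + (Lk 2 k : ℝ) * (d : ℝ) ^ (-c))) atTop
      (nhds (0 * q ^ 2 + (0 + (Lk 2 k : ℝ) * 0))) := by
    refine ((SB.err_lim k).mul_const _).add ((SB.errb_lim k hc).add (Tendsto.const_mul _ ?_))
    exact (tendsto_rpow_neg_atTop hc).comp tendsto_natCast_atTop_atTop
  rw [zero_mul, mul_zero, add_zero, add_zero] at hlim
  obtain ⟨D2, h2⟩ := eventually_atTop.1 (hlim.eventually (gt_mem_nhds hδ))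
  refine ⟨max (max D1 D2) (max D3 1), fun d hd ho e he => ?_⟩
  have hd1 : D1 ≤ d := ((le_max_left _ _).trans (le_max_left _ _)).trans hd
  have hd2 : D2 ≤ d := ((le_max_right _ _).trans (le_max_left _ _)).trans hd
  have hd3 : D3 ≤ d := ((le_max_left _ _).trans (le_max_right _ _)).trans hd
  have hd4 : 1 ≤ d := ((le_max_right _ _).trans (le_max_right _ _)).trans hd
  have hb : Big d := h3 d hd3
  have he2 : 2 * e < d := by omega
  have hLk : (0 : ℝ) ≤ (Lk 2 k : ℝ) := Nat.cast_nonneg _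
  have key : ∀ Y ∈ Tf F d e, |NYf 0 k d e Y - (Lk 2 k : ℝ)| ≤
      err k d + if Bad d Y then errb k d + (Lk 2 k : ℝ) else 0 := by
    intro Y hY
    obtain ⟨hf, ht⟩ := mem_Tf.1 hY
    unfold NYf
    rw [dif_pos hf.1]
    by_cases hbd : Bad d Y
    · rw [if_pos hbd]
      have g1 := nke_all hb he2 hf ht k 0
      have g2 : |NY hf.1 0 k e - (Lk 2 k : ℝ)| ≤ |NY hf.1 0 k e| + |(Lk 2 k : ℝ)| := abs_sub _ _
      rw [abs_of_nonneg hLk] at g2
      have g3 := err_nonneg k d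
      linarith
    · rw [if_neg hbd, add_zero]
      exact nke0 hb ho he2 hf ht hbd k
  have e1 : ∑ Y ∈ Tf F d e, NYf 0 k d e Y - (Lk 2 k : ℝ) * ((Tf F d e).card : ℝ) =
      ∑ Y ∈ Tf F d e, (NYf 0 k d e Y - (Lk 2 k : ℝ)) := by
    rw [Finset.sum_sub_distrib, Finset.sum_const, nsmul_eq_mul, mul_comm]
  rw [e1]
  refine (Finset.abs_sum_le_sum_abs _ _).trans ((Finset.sum_le_sum key).trans ?_)
  rw [Finset.sum_add_distrib, Finset.sum_const, nsmul_eq_mul, ← Finset.sum_filter,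
    Finset.sum_const, nsmul_eq_mul]
  have g1 := h1 d hd1 ho e he
  have g2 := card_Tf (F := F) d e
  rw [← hq] at g1 g2 ⊢
  have g3 := err_nonneg k d
  have g4 : 0 ≤ errb k d + (Lk 2 k : ℝ) := add_nonneg (errb_nonneg k d) hLk
  have g5 : q ^ (2 * (d + 1)) = q ^ 2 * q ^ (2 * d) := by
    rw [← pow_add]
    congr 1
    ring
  calc ((Tf F d e).card : ℝ) * err k d +
        (((Tf F d e).filter fun Y => Bad d Y).card : ℝ) * (errb k d + (Lk 2 k : ℝ))
      ≤ q ^ (2 * (d + 1)) * err k d +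
        ((d : ℝ) ^ (-c) * q ^ (2 * d)) * (errb k d + (Lk 2 k : ℝ)) :=
        add_le_add (mul_le_mul_of_nonneg_right g2 g3) (mul_le_mul_of_nonneg_right g1 g4)
    _ = (err k d * q ^ 2 + (errb k d * (d : ℝ) ^ (-c) + (Lk 2 k : ℝ) * (d : ℝ) ^ (-c))) *
        q ^ (2 * d) := by
        rw [g5]
        ring
    _ ≤ δ * q ^ (2 * d) :=
        mul_le_mul_of_nonneg_right (h2 d hd2).le (pow_nonneg hq0 _)

theorem est1 (k : ℕ) {δ : ℝ} (hδ : 0 < δ) : ∃ D : ℕ, ∀ d : ℕ, D ≤ d →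
    ∀ e : ℕ, 10 * e ≤ d →
      |∑ Y ∈ Tf F d e, NYf 1 k d e Y| ≤ δ * (Nat.card F : ℝ) ^ (2 * d) := by
  obtain ⟨D3, h3⟩ := SB.big
  obtain ⟨q, hq⟩ : ∃ q : ℝ, q = (Nat.card F : ℝ) := ⟨_, rfl⟩
  have hq0 : 0 ≤ q := by rw [hq]; positivity
  have hlim : Tendsto (fun d : ℕ => err k d * q ^ 2) atTop (nhds (0 * q ^ 2)) :=
    (SB.err_lim k).mul_const _
  rw [zero_mul] at hlim
  obtain ⟨D2, h2⟩ := eventually_atTop.1 (hlim.eventually (gt_mem_nhds hδ))
  refine ⟨max D2 (max D3 1), fun d hd e he => ?_⟩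
  have hd2 : D2 ≤ d := (le_max_left _ _).trans hd
  have hd3 : D3 ≤ d := ((le_max_left _ _).trans (le_max_right _ _)).trans hd
  have hd4 : 1 ≤ d := ((le_max_right _ _).trans (le_max_right _ _)).trans hd
  have hb : Big d := h3 d hd3
  have he2 : 2 * e < d := by omega
  have key : ∀ Y ∈ Tf F d e, |NYf 1 k d e Y| ≤ err k d := by
    intro Y hY
    obtain ⟨hf, ht⟩ := mem_Tf.1 hY
    unfold NYf
    rw [dif_pos hf.1]
    exact nke1 hb he2 hf ht k
  refine (Finset.abs_sum_le_sum_abs _ _).trans ((Finset.sum_le_sum key).trans ?_)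
  rw [Finset.sum_const, nsmul_eq_mul]
  have g2 := card_Tf (F := F) d e
  rw [← hq] at g2 ⊢
  have g3 := err_nonneg k d
  have g5 : q ^ (2 * (d + 1)) = q ^ 2 * q ^ (2 * d) := by
    rw [← pow_add]
    congr 1
    ring
  calc ((Tf F d e).card : ℝ) * err k d ≤ q ^ (2 * (d + 1)) * err k d :=
        mul_le_mul_of_nonneg_right g2 g3
    _ = (err k d * q ^ 2) * q ^ (2 * d) := by
        rw [g5]
        ring
    _ ≤ δ * q ^ (2 * d) :=
        mul_le_mul_of_nonneg_right (h2 d hd2).le (pow_nonneg hq0 _)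

end Pool.Agent.H3.SC
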