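import Pool.Agent.H3.SC.TP3

set_option autoImplicit false

/-!
# [H3 SC PRF] Profiles of labellings

* `wv_iff`: `z ∈ WV f k` iff for all `l` the vectors `p ↦ (z p).1 l` and `p ↦ (z p).2 l` are in `WX Y`, i.e. their `dgp Y . i` do not depend on `i`; `dgp Y (fun p => (z p).1 l) i = ∑_{P ∈ pf (Y i)} (z P).1 l * deg P = ∑ v, v.1 l * deg (px Y z i v)` (`natDegree` of a product of monic polynomials), which is the coordinate `l` of the first part of
  `∑ v, (deg (px Y z i v) : ZMod 2) • v`; the same for the second parts.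
* `pfl_fin`: `Pfl k` is finite (inject it into `Finset (V k) × V k × (V k → ZMod 2)`).
* `pfl_ex`: for `Fm d e Y`, `2 e < d` the profile exists and is unique: `U = {v | ∃ P ∈ pf (px Y z i v), y ≤ deg P ∧ deg P + e < d}`, `dl v = deg`, and the label of the large prime (`SB.lrg_ex`, `SB.lrg_uniq`, `px_pf`; two large primes of the class would be equal).
* `nk_iff`: `SB.NK th d e Y z` iff `NotKilled th (π 0).v (π 1).v (π 2).v (π 0).U (π 1).U (π 2).U` for the profile `π`: the large primes are unique and have the labels `(π i).v`, and `SA.im z (Mdm d e Y i) = (π i).U` (`px_pf`, `SB.mem_Mdm`).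
* `wc_iff`: `Wx (px Y z) ↔ Wc π` (the parities).
-/

namespace Pool.Agent.H3.SC

open Polynomial
open Pool.Agent.H94.PC
open Pool.Agent.H94.PS
open Pool.Agent.H74.SL (V NotKilled)
open Pool.Agent.H3

variable {F : Type} [Field F] [Finite F] {k d e : ℕ} {Y : Fin 3 → F[X]}

/-- the degree of a part -/
private theorem px_deg (Y : Fin 3 → F[X]) (z : SX Y → V k) (i : Fin 3) (v : V k) :
    ((px Y z i v).natDegree : ZMod 2) =
      ∑ P : {P // P ∈ pf (Y i)}, if z ⟨i, P⟩ = v then (P.1.natDegree : ZMod 2) else 0 := by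
  unfold px part
  rw [natDegree_prod_of_monic]
  · push_cast
    refine Finset.sum_congr rfl fun P _ => ?_
    split_ifs
    · rfl
    · rw [natDegree_one, Nat.cast_zero]
  · intro P _
    split_ifs
    · exact (mem_pf' P.2).1
    · exact monic_one

private theorem sum_lab (Y : Fin 3 → F[X]) (z : SX Y → V k) (i : Fin 3) (g : V k → ZMod 2) :
    ∑ P : {P // P ∈ pf (Y i)}, g (z ⟨i, P⟩) * (P.1.natDegree : ZMod 2) =
      ∑ v, ((px Y z i v).natDegree : ZMod 2) * g v := by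
  simp only [px_deg, Finset.sum_mul]
  rw [Finset.sum_comm]
  refine Finset.sum_congr rfl fun P _ => ?_
  simp only [ite_mul, zero_mul]
  rw [Finset.sum_ite_eq, if_pos (Finset.mem_univ _), mul_comm]

private theorem fst_sum' (a : V k → ZMod 2) (l : Fin k) :
    (∑ v, a v • v : V k).1 l = ∑ v : V k, a v * v.1 l := by
  rw [Prod.fst_sum, Finset.sum_apply]
  rfl

private theorem snd_sum' (a : V k → ZMod 2) (l : Fin k) :
    (∑ v, a v • v : V k).2 l = ∑ v : V k, a v * v.2 l := by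
  rw [Prod.snd_sum, Finset.sum_apply]
  rfl

theorem wv_iff (h : Tr d Y) (z : SX Y → V k) : z ∈ SA.WV (SB.frm h) k ↔ Wx (px Y z) := by
  rw [SA.mem_WV]
  have e1 : ∀ (i : Fin 3) (l : Fin k), dgp Y (fun p => (z p).1 l) i =
      (∑ v, ((px Y z i v).natDegree : ZMod 2) • v : V k).1 l := by
    intro i l
    rw [fst_sum', ← sum_lab Y z i (fun v => v.1 l)]
    rfl
  have e2 : ∀ (i : Fin 3) (l : Fin k), dgp Y (fun p => (z p).2 l) i =
      (∑ v, ((px Y z i v).natDegree : ZMod 2) • v : V k).2 l := by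
    intro i l
    rw [snd_sum', ← sum_lab Y z i (fun v => v.2 l)]
    rfl
  constructor
  · intro hz i
    refine Prod.ext (funext fun l => ?_) (funext fun l => ?_)
    · rw [← e1, ← e1]
      exact (hz l).1 i
    · rw [← e2, ← e2]
      exact (hz l).2 i
  · intro hz l
    constructor
    · intro i
      rw [e1, e1, hz i]
    · intro i
      rw [e2, e2, hz i]

instance pfl_fin (k : ℕ) : Finite (Pfl k) := by
  have h : Function.Injective (fun π : Pfl k => (π.U, π.v, π.dl)) := by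
    rintro ⟨U, v, dl⟩ ⟨U', v', dl'⟩ h
    simp only [Prod.mk.injEq] at h
    rw [h.1, h.2.1, h.2.2]
  exact Finite.of_injective _ h

private theorem pfl_uniq {x : V k → F[X]} {π π' : Pfl k} {y : ℕ}
    (hl : ∀ v v' : V k, (∃ P ∈ pf (x v), d ≤ P.natDegree + e) →
      (∃ P ∈ pf (x v'), d ≤ P.natDegree + e) → v = v')
    (h : IsPfl d e y π x) (h' : IsPfl d e y π' x) : π = π' := by
  obtain ⟨U, v, dl⟩ := π
  obtain ⟨U', v', dl'⟩ := π'
  have h1 : U = U' := by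
    ext w
    exact (h.med w).trans (h'.med w).symm
  have h2 : v = v' := hl _ _ h.lrg h'.lrg
  have h3 : dl = dl' := funext fun w => (h.dl w).symm.trans (h'.dl w)
  rw [h1, h2, h3]

private theorem px_large (h : Tr d Y) (he : 2 * e < d) (z : SX Y → V k) (i : Fin 3)
    {v v' : V k} (hv : ∃ P ∈ pf (px Y z i v), d ≤ P.natDegree + e)
    (hv' : ∃ P ∈ pf (px Y z i v'), d ≤ P.natDegree + e) : v = v' := by
  obtain ⟨P, hP, h1⟩ := hv
  obtain ⟨P', hP', h2⟩ := hv'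
  obtain ⟨g1, g2⟩ := (px_pf Y z i v P).1 hP
  obtain ⟨g3, g4⟩ := (px_pf Y z i v' P').1 hP'
  have h3 := SB.lrg_uniq h he (p := ⟨i, ⟨P, g1⟩⟩) (r := ⟨i, ⟨P', g3⟩⟩) rfl h1 h2
  rw [← g2, ← g4, h3]

open Classical in
theorem pfl_ex (h : Fm d e Y) (he : 2 * e < d) (z : SX Y → V k) :
    ∃! π : Fin 3 → Pfl k, ∀ i, IsPfl d e (thr d) (π i) (px Y z i) := by
  choose p hp1 hp2 using SB.lrg_ex h
  refine ⟨fun i => ⟨Finset.univ.filter fun v => ∃ P ∈ pf (px Y z i v), thr d ≤ P.natDegree ∧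
    P.natDegree + e < d, z (p i), fun v => ((px Y z i v).natDegree : ZMod 2)⟩, fun i => ?_, ?_⟩
  · refine ⟨fun v => ?_, ?_, fun v => rfl⟩
    · rw [Finset.mem_filter]
      exact ⟨fun h => h.2, fun h => ⟨Finset.mem_univ _, h⟩⟩
    · show ∃ P ∈ pf (px Y z i (z (p i))), d ≤ P.natDegree + e
      have h1 := hp1 i
      have h2 := hp2 i
      generalize p i = r at h1 h2
      obtain ⟨j, P⟩ := r
      have hji : j = i := h1
      subst hji
      exact ⟨P.1, (px_pf _ _ _ _ _).2 ⟨P.2, rfl⟩, h2⟩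
  · intro π' hπ'
    funext i
    refine pfl_uniq (fun v v' hv hv' => px_large h.1 he z i hv hv') (hπ' i) ?_
    refine ⟨fun v => ?_, ?_, fun v => rfl⟩
    · rw [Finset.mem_filter]
      exact ⟨fun h => h.2, fun h => ⟨Finset.mem_univ _, h⟩⟩
    · show ∃ P ∈ pf (px Y z i (z (p i))), d ≤ P.natDegree + e
      have h1 := hp1 i
      have h2 := hp2 i
      generalize p i = r at h1 h2
      obtain ⟨j, P⟩ := r
      have hji : j = i := h1
      subst hji
      exact ⟨P.1, (px_pf _ _ _ _ _).2 ⟨P.2, rfl⟩, h2⟩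

private theorem im_mdm (z : SX Y → V k) {π : Fin 3 → Pfl k}
    (hπ : ∀ i, IsPfl d e (thr d) (π i) (px Y z i)) (i : Fin 3) :
    SA.im z (SB.Mdm d e Y i) = (π i).U := by
  ext v
  rw [(hπ i).med v]
  constructor
  · intro hv
    obtain ⟨p, hp, rfl⟩ := Finset.mem_image.1 hv
    rw [SB.mem_Mdm] at hp
    obtain ⟨j, P⟩ := p
    obtain ⟨h1, h2, h3⟩ := hp
    have hji : j = i := h1
    subst hji
    exact ⟨P.1, (px_pf _ _ _ _ _).2 ⟨P.2, rfl⟩, h2, h3⟩
  · rintro ⟨P, hP, h2, h3⟩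
    obtain ⟨g1, g2⟩ := (px_pf _ _ _ _ _).1 hP
    refine Finset.mem_image.2 ⟨⟨i, ⟨P, g1⟩⟩, ?_, g2⟩
    rw [SB.mem_Mdm]
    exact ⟨rfl, h2, h3⟩

private theorem lrg_lab (h : Tr d Y) (he : 2 * e < d) (z : SX Y → V k) {π : Fin 3 → Pfl k}
    (hπ : ∀ i, IsPfl d e (thr d) (π i) (px Y z i)) (i : Fin 3) {p : SX Y} (hp : p.1 = i)
    (hd : d ≤ p.2.1.natDegree + e) : z p = (π i).v := by
  obtain ⟨P, hP, h2⟩ := (hπ i).lrg
  obtain ⟨g1, g2⟩ := (px_pf _ _ _ _ _).1 hP
  have h3 := SB.lrg_uniq h he (p := p) (r := ⟨i, ⟨P, g1⟩⟩) hp hd h2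
  rw [h3, g2]

theorem nk_iff (h : Fm d e Y) (he : 2 * e < d) (th : ZMod 2) (z : SX Y → V k)
    {π : Fin 3 → Pfl k} (hπ : ∀ i, IsPfl d e (thr d) (π i) (px Y z i)) :
    SB.NK th d e Y z ↔ ¬ Lkd th π := by
  unfold Lkd
  rw [not_not]
  constructor
  · intro hz
    obtain ⟨p0, h0, g0⟩ := SB.lrg_ex h 0
    obtain ⟨p1, h1, g1⟩ := SB.lrg_ex h 1
    obtain ⟨p2, h2, g2⟩ := SB.lrg_ex h 2
    have := hz p0 p1 p2 h0 h1 h2 g0 g1 g2
    rwa [im_mdm z hπ, im_mdm z hπ, im_mdm z hπ, lrg_lab h.1 he z hπ 0 h0 g0,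
      lrg_lab h.1 he z hπ 1 h1 g1, lrg_lab h.1 he z hπ 2 h2 g2] at this
  · intro hz p0 p1 p2 h0 h1 h2 g0 g1 g2
    rw [im_mdm z hπ, im_mdm z hπ, im_mdm z hπ, lrg_lab h.1 he z hπ 0 h0 g0,
      lrg_lab h.1 he z hπ 1 h1 g1, lrg_lab h.1 he z hπ 2 h2 g2]
    exact hz

theorem wc_iff {x : Fin 3 → V k → F[X]} {π : Fin 3 → Pfl k} {y : ℕ}
    (hπ : ∀ i, IsPfl d e y (π i) (x i)) : Wx x ↔ Wc π := by
  unfold Wx Wc
  have h1 : ∀ i, ∑ v, ((x i v).natDegree : ZMod 2) • v = ∑ v, (π i).dl v • v := fun i =>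
    Finset.sum_congr rfl fun v _ => by rw [(hπ i).dl v]
  simp only [h1]

end Pool.Agent.H3.SC
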