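import Pool.Agent.H3.SC.PHZ
import Pool.Agent.H3.SC.PRF

set_option autoImplicit false

/-!
# [H3 SC IDN] The killed part of the moments as a sum of class sums

Let `S = Tf F d e`, `2 e < d`.  For `Y ∈ S`: `((1/2)^k)^n sg (th n) KS = ∑_{z : SX Y → V k} G Y (px Y z)` with
`G Y x = if Wx x ∧ ∃ π, Lkd th π ∧ ∀ i, IsPfl d e (thr d) (π i) (x i) then ((1/2)^k)^(nY Y) * sg (th * nY Y) * sg (phx th Y x) else 0` (`wv_iff`, `pfl_ex`, `nk_iff`, `phz`; `Finset.sum_filter` and `SA.FS`).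
`tp3`: the sum over `Y ∈ S` is `∑ c, ∑ x, if TY c x ∈ S then G (TY c x) x else 0`.  On the other side `∑ c, ∑_{π : Lkd th π ∧ Wc π} CS th d e c π = ∑ c, ∑ x, [TY c x ∈ S] wgt th c x * #{π : Lkd th π, Wc π, IsPfl π x}` (interchange the sums); for `TY c x = Y ∈ S` write `x = px Y z` for some `z`
(from `tp3`-type surjectivity; or use `tp3` backwards with the function `G' Y x = ∑_{π : Lkd, Wc} if ∀ i, IsPfl .. then ((1/2)^k)^(nY Y) .. else 0`: both sides become sums over `Y ∈ S` and `z`, and there the profile of `px Y z` is unique, `pfl_ex`, `wc_iff`).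
`wgt th c x = ((1/2)^k)^(nY (TY c x)) * sg (th * nY (TY c x)) * sg (ph th c x)` (`∏ i, a ^ om = a ^ (∑ om)`).
-/

namespace Pool.Agent.H3.SC

open Polynomial
open Pool.Agent.H94.PC
open Pool.Agent.H94.PS
open Pool.Agent.H74.SL (V NotKilled)
open Pool.Agent.H3

variable {F : Type} [Field F] [Finite F]

open Classical in
/-- the weighted killed sum of one `Y` -/
noncomputable def KY (th : ZMod 2) (k d e : ℕ) (Y : Fin 3 → F[X]) : ℝ :=
  if h : Tr d Y then ((1 / 2 : ℝ) ^ k) ^ nY Y * sg (th * (nY Y : ZMod 2)) * KS h th k e else 0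

private theorem wgt_eq {k d : ℕ} (th : ZMod 2) (c : Fin 3 → F) (x : Fin 3 → V k → Mn F d) :
    wgt th c x = ((1 / 2 : ℝ) ^ k) ^ nY (TY c x) * sg (th * (nY (TY c x) : ZMod 2)) *
      sg (phx th (TY c x) fun i v => (x i v).1) := by
  unfold wgt nY
  rw [Finset.prod_pow_eq_pow_sum, ph_eq]

open Classical in
/-- the summand -/
private noncomputable def GP (th : ZMod 2) (k d e : ℕ) (Y : Fin 3 → F[X])
    (x : Fin 3 → V k → F[X]) : ℝ :=
  ∑ π ∈ SA.FS (fun π : Fin 3 → Pfl k => Lkd th π ∧ Wc π),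
    if ∀ i, IsPfl d e (thr d) (π i) (x i) then
      ((1 / 2 : ℝ) ^ k) ^ nY Y * sg (th * (nY Y : ZMod 2)) * sg (phx th Y x) else 0

open Classical in
private theorem gp_right (th : ZMod 2) (k d e : ℕ) (c : Fin 3 → F) :
    ∑ π ∈ SA.FS (fun π : Fin 3 → Pfl k => Lkd th π ∧ Wc π), CS th d e c π =
      ∑ x : Fin 3 → V k → Mn F d,
        if TY c x ∈ Tf F d e then GP th k d e (TY c x) (fun i v => (x i v).1) else 0 := by
  unfold CS
  rw [Finset.sum_comm]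
  refine Finset.sum_congr rfl fun x _ => ?_
  by_cases hx : TY c x ∈ Tf F d e
  · rw [if_pos hx]
    have h1 := mem_Tf.1 hx
    unfold GP
    refine Finset.sum_congr rfl fun π _ => ?_
    have h2 : (TY c x ∈ Fam F d e ∧ Typ d (TY c x) ∧
        ∀ i, IsPfl d e (thr d) (π i) fun v => (x i v).1) ↔
        ∀ i, IsPfl d e (thr d) (π i) fun v => (x i v).1 :=
      ⟨fun h => h.2.2, fun h => ⟨mem_Fam.2 h1.1, h1.2, h⟩⟩
    by_cases h3 : ∀ i, IsPfl d e (thr d) (π i) fun v => (x i v).1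
    · rw [if_pos (h2.2 h3), if_pos h3, wgt_eq]
    · rw [if_neg fun h => h3 (h2.1 h), if_neg h3]
  · rw [if_neg hx]
    refine Finset.sum_eq_zero fun π _ => ?_
    rw [if_neg]
    rintro ⟨h1, h2, _⟩
    exact hx (mem_Tf.2 ⟨mem_Fam.1 h1, h2⟩)

open Classical in
private theorem gp_left {d e : ℕ} {Y : Fin 3 → F[X]} (h : Fm d e Y) (he : 2 * e < d)
    (th : ZMod 2) (k : ℕ) (z : SX Y → V k) :
    GP th k d e Y (px Y z) = if z ∈ SA.WV (SB.frm h.1) k ∧ ¬ SB.NK th d e Y z then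
      ((1 / 2 : ℝ) ^ k) ^ nY Y * sg (th * (nY Y : ZMod 2)) *
        sg (SA.MV (SB.frm h.1) z + th * bf Y 1 1) else 0 := by
  obtain ⟨π0, h1, h2⟩ := pfl_ex h he z
  have h3 : ∀ π : Fin 3 → Pfl k, (∀ i, IsPfl d e (thr d) (π i) (px Y z i)) ↔ π0 = π :=
    fun π => ⟨fun h => (h2 π h).symm, fun h => by rw [← h]; exact h1⟩
  unfold GP
  simp only [h3]
  rw [Finset.sum_ite_eq, phz h.1]
  have h4 : π0 ∈ SA.FS (fun π : Fin 3 → Pfl k => Lkd th π ∧ Wc π) ↔
      (z ∈ SA.WV (SB.frm h.1) k ∧ ¬ SB.NK th d e Y z) := by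
    rw [SA.mem_FS, nk_iff h he th z h1, not_not, wv_iff, wc_iff h1, and_comm]
  by_cases h5 : z ∈ SA.WV (SB.frm h.1) k ∧ ¬ SB.NK th d e Y z
  · rw [if_pos (h4.2 h5), if_pos h5]
  · rw [if_neg fun h => h5 (h4.1 h), if_neg h5]

theorem idn (th : ZMod 2) (k d e : ℕ) (he : 2 * e < d) :
    ∑ Y ∈ Tf F d e, KY th k d e Y =
      ∑ c ∈ CF F, ∑ π ∈ SA.FS (fun π : Fin 3 → Pfl k => Lkd th π ∧ Wc π),
        CS th d e c π := by
  classical
  simp only [gp_right]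
  rw [← tp3 k d (Tf F d e) (fun Y hY => (mem_Tf.1 hY).1.1) (GP th k d e)]
  refine Finset.sum_congr rfl fun Y hY => ?_
  have h := (mem_Tf.1 hY).1
  simp only [gp_left h he]
  unfold KY KS
  rw [dif_pos h.1, Finset.mul_sum, ← Finset.sum_filter]
  refine Finset.sum_congr ?_ fun z _ => rfl
  ext z
  rw [SA.mem_FS, Finset.mem_filter]
  exact ⟨fun h => ⟨Finset.mem_univ _, h⟩, fun h => h.2⟩

end Pool.Agent.H3.SC
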