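import Pool.Agent.H3.SC.IDN
import Pool.Agent.H94.PS.Kil

set_option autoImplicit false

/-!
# [H3 SC KLE] The killed part: estimate

`idn`: at most `card (CF F) * card (profiles)` class sums, each at most `K (d + 1) ^ K q ^ (2 d) q ^ (- thr d / 16)` (`killed`); `thr d ≥ (log d) ^ 2`, `q ≥ 2`, so `(d + 1) ^ K q ^ (- thr d / 16) → 0` (`(d + 1) ^ K = exp (K log (d + 1))` against `exp (- (log 2 / 16) (log d) ^ 2)`).
-/

namespace Pool.Agent.H3.SC

open Polynomial
open Pool.Agent.H94.PC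
open Pool.Agent.H94.PS
open Pool.Agent.H3

variable {F : Type} [Field F] [Finite F]

private theorem kle_bd {q : ℝ} (hq : 2 ≤ q) (K d : ℕ) (hd : 1 ≤ d)
    (hx : (K + 1) / (Real.log 2 / 16) ≤ Real.log d) :
    ((d : ℝ) + 1) ^ K * q ^ (-(thr d : ℝ) / 16) ≤ Real.exp K / d := by
  have hd1 : (1 : ℝ) ≤ d := by exact_mod_cast hd
  have hd0 : (0 : ℝ) < d := by linarith
  set x := Real.log d with hxd
  have hx0 : 0 ≤ x := Real.log_nonneg hd1
  have hex : Real.exp x = d := Real.exp_log hd0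
  have hc : 0 < Real.log 2 / 16 := by
    have := Real.log_pos (one_lt_two)
    positivity
  have h1 : ((d : ℝ) + 1) ^ K ≤ Real.exp (K * (1 + x)) := by
    rw [Real.exp_nat_mul]
    refine pow_le_pow_left₀ (by positivity) ?_ K
    rw [Real.exp_add, hex]
    have := Real.add_one_le_exp (1 : ℝ)
    nlinarith
  have ht : x ^ 2 ≤ (thr d : ℝ) := by
    unfold thr
    exact Nat.le_ceil _
  have h2 : q ^ (-(thr d : ℝ) / 16) ≤ Real.exp (-(Real.log 2 / 16) * x ^ 2) := by
    calc q ^ (-(thr d : ℝ) / 16) ≤ (2 : ℝ) ^ (-(thr d : ℝ) / 16) := by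
          refine Real.rpow_le_rpow_of_nonpos (by norm_num) hq ?_
          have : (0 : ℝ) ≤ thr d := Nat.cast_nonneg _
          linarith
      _ ≤ (2 : ℝ) ^ (-(x ^ 2) / 16) := by
          refine Real.rpow_le_rpow_of_exponent_le (by norm_num) ?_
          linarith
      _ = Real.exp (-(Real.log 2 / 16) * x ^ 2) := by
          rw [Real.rpow_def_of_pos (by norm_num)]
          congr 1
          ring
  have h3 : (K : ℝ) + 1 ≤ Real.log 2 / 16 * x := by
    rw [div_le_iff₀ hc] at hx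
    linarith
  calc ((d : ℝ) + 1) ^ K * q ^ (-(thr d : ℝ) / 16) ≤
        Real.exp (K * (1 + x)) * Real.exp (-(Real.log 2 / 16) * x ^ 2) :=
        mul_le_mul h1 h2 (Real.rpow_nonneg (by linarith) _) (Real.exp_pos _).le
    _ = Real.exp (K * (1 + x) + -(Real.log 2 / 16) * x ^ 2) := (Real.exp_add _ _).symm
    _ ≤ Real.exp (K - x) := by
        refine Real.exp_le_exp.2 ?_
        nlinarith
    _ = Real.exp K / d := by rw [Real.exp_sub, hex]

theorem kle_lim {q : ℝ} (hq : 2 ≤ q) (K : ℕ) :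
    Filter.Tendsto (fun d : ℕ => ((d : ℝ) + 1) ^ K * q ^ (-(thr d : ℝ) / 16)) Filter.atTop
      (nhds 0) := by
  refine squeeze_zero' (Filter.Eventually.of_forall fun d => ?_) ?_
    (tendsto_const_div_atTop_nhds_zero_nat (Real.exp K))
  · exact mul_nonneg (by positivity) (Real.rpow_nonneg (by linarith) _)
  · have h1 : Filter.Tendsto (fun d : ℕ => Real.log d) Filter.atTop Filter.atTop :=
      Real.tendsto_log_atTop.comp tendsto_natCast_atTop_atTop
    filter_upwards [h1.eventually_ge_atTop ((K + 1) / (Real.log 2 / 16)),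
      Filter.eventually_ge_atTop 1] with d hd1 hd2
    exact kle_bd hq K d hd2 hd1

theorem kle (h2 : (2 : F) ≠ 0) (th : ZMod 2) (k : ℕ) {δ : ℝ} (hδ : 0 < δ) : ∃ D : ℕ,
    ∀ d : ℕ, D ≤ d → ∀ e : ℕ, 10 * e ≤ d →
      |∑ Y ∈ Tf F d e, KY th k d e Y| ≤ δ * (Nat.card F : ℝ) ^ (2 * d) := by
  obtain ⟨K, hK⟩ := killed h2 k th
  have hq : (2 : ℝ) ≤ (Nat.card F : ℝ) := by exact_mod_cast Finite.one_lt_card (α := F)
  set N : ℝ := ((CF F).card : ℝ) *
    ((SA.FS (fun π : Fin 3 → Pfl k => Lkd th π ∧ Wc π)).card : ℝ) * K with hN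
  have hN0 : 0 ≤ N := by positivity
  have hlim := kle_lim hq K
  have hε : 0 < δ / (N + 1) := by positivity
  obtain ⟨D, hD⟩ := Filter.eventually_atTop.1 ((tendsto_order.1 hlim).2 _ hε)
  refine ⟨max D 2, fun d hd e he => ?_⟩
  have hd1 : D ≤ d := le_trans (le_max_left _ _) hd
  have hd2 : 2 ≤ d := le_trans (le_max_right _ _) hd
  rw [idn th k d e (by omega)]
  have h1 := hD d hd1
  set t := ((d : ℝ) + 1) ^ K * (Nat.card F : ℝ) ^ (-(thr d : ℝ) / 16) with ht
  have hQ : 0 ≤ (Nat.card F : ℝ) ^ (2 * d) := by positivity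
  have h3 : ∀ c ∈ CF F, |∑ π ∈ SA.FS (fun π : Fin 3 → Pfl k => Lkd th π ∧ Wc π),
      CS th d e c π| ≤ ((SA.FS (fun π : Fin 3 → Pfl k => Lkd th π ∧ Wc π)).card : ℝ) *
        (K * t * (Nat.card F : ℝ) ^ (2 * d)) := by
    intro c _
    refine (Finset.abs_sum_le_sum_abs _ _).trans ?_
    rw [← nsmul_eq_mul]
    refine Finset.sum_le_card_nsmul _ _ _ fun π hπ => ?_
    refine (hK c π (SA.mem_FS.1 hπ).1 d e he hd2).trans (le_of_eq ?_)
    rw [ht]
    ring
  have h4 : |∑ c ∈ CF F, ∑ π ∈ SA.FS (fun π : Fin 3 → Pfl k => Lkd th π ∧ Wc π),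
      CS th d e c π| ≤ N * t * (Nat.card F : ℝ) ^ (2 * d) := by
    refine (Finset.abs_sum_le_sum_abs _ _).trans ?_
    refine (Finset.sum_le_card_nsmul _ _ _ h3).trans (le_of_eq ?_)
    rw [nsmul_eq_mul, hN]
    ring
  refine h4.trans ?_
  refine mul_le_mul_of_nonneg_right ?_ hQ
  have h5 : t * (N + 1) ≤ δ := by
    rw [lt_div_iff₀ (by linarith)] at h1
    exact h1.le
  have h6 : 0 ≤ t := by
    rw [ht]
    exact mul_nonneg (by positivity) (Real.rpow_nonneg (by linarith) _)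
  nlinarith

end Pool.Agent.H3.SC
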