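import Pool.Agent.H3.SC.EST
import Pool.Agent.H3.SC.KLE

set_option autoImplicit false

/-!
# [H3 SC MZ] The moments

`em_split`: for odd `d`: `(2^k)^rk sg (th rk) = NYf + 4^k KY` (`rks`, `card_W_eq`: `1 / card W ^ k = 4 ^ k ((1/2)^k)^n`), so `Em = ∑ NYf + 4 ^ k ∑ KY`.  Then `est0`, `est1`, `kle`.
-/

namespace Pool.Agent.H3.SC

open Polynomial
open Pool.Agent.H94.PC
open Pool.Agent.H94.PS
open Pool.Agent.H94.PN (Lk)
open Pool.Agent.H3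

variable {F : Type} [Field F] [Finite F]

theorem em_one {d e : ℕ} {Y : Fin 3 → F[X]} (hd : Odd d) (h : Tr d Y) (th : ZMod 2) (k : ℕ) :
    ((2 : ℝ) ^ k) ^ rkY Y * sg (th * (rkY Y : ZMod 2)) =
      NYf th k d e Y + 4 ^ k * KY th k d e Y := by
  have h1 := rks h hd th k e
  have h2 := card_W_eq h hd
  have hW : (0 : ℝ) < (Nat.card (WX Y) : ℝ) := by
    have : 0 < Nat.card (WX Y) := Nat.card_pos
    exact_mod_cast this
  have h3 : (4 : ℝ) * (Nat.card (WX Y) : ℝ) = 2 ^ nY Y := by exact_mod_cast h2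
  have h4 : (4 : ℝ) ^ k * ((1 / 2 : ℝ) ^ k) ^ nY Y = 1 / (Nat.card (WX Y) : ℝ) ^ k := by
    rw [← pow_mul, mul_comm k, pow_mul, one_div, inv_pow, ← h3, ← mul_pow, mul_inv, ← mul_assoc,
      mul_inv_cancel₀ (by norm_num : (4 : ℝ) ≠ 0), one_mul, inv_pow, one_div]
  unfold NYf KY
  rw [dif_pos h, dif_pos h]
  unfold NY
  have h5 : (Nat.card (WX Y) : ℝ) ^ k ≠ 0 := by positivity
  have h6 : ((2 : ℝ) ^ k) ^ rkY Y * sg (th * (rkY Y : ZMod 2)) =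
      sg (th * (nY Y : ZMod 2)) * (NS h th k e + KS h th k e) / (Nat.card (WX Y) : ℝ) ^ k := by
    rw [← h1, mul_div_assoc, div_self h5, mul_one]
  rw [h6]
  have h7 : 4 ^ k * (((1 / 2 : ℝ) ^ k) ^ nY Y * sg (th * (nY Y : ZMod 2)) * KS h th k e) =
      (4 ^ k * ((1 / 2 : ℝ) ^ k) ^ nY Y) * (sg (th * (nY Y : ZMod 2)) * KS h th k e) := by ring
  rw [h7, h4]
  ring

theorem em_split {d e : ℕ} (hd : Odd d) (th : ZMod 2) (k : ℕ) :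
    Em F th k d e = ∑ Y ∈ Tf F d e, NYf th k d e Y + 4 ^ k * ∑ Y ∈ Tf F d e, KY th k d e Y := by
  unfold Em
  rw [Finset.mul_sum, ← Finset.sum_add_distrib]
  exact Finset.sum_congr rfl fun Y hY => em_one hd (mem_Tf.1 hY).1.1 th k

theorem mom_zero (h2 : (2 : F) ≠ 0) (hB : BadBound F) (k : ℕ) {δ : ℝ} (hδ : 0 < δ) :
    ∃ D : ℕ, ∀ d : ℕ, D ≤ d → Odd d → ∀ e : ℕ, 10 * e ≤ d →
      |Em F 0 k d e - (Lk 2 k : ℝ) * ((Tf F d e).card : ℝ)| ≤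
        δ * (Nat.card F : ℝ) ^ (2 * d) := by
  obtain ⟨D1, h1⟩ := est0 hB k (half_pos hδ)
  obtain ⟨D2, h3⟩ := kle h2 0 k (δ := δ / 2 / 4 ^ k) (by positivity)
  refine ⟨max D1 D2, fun d hd ho e he => ?_⟩
  rw [em_split ho]
  have e1 := h1 d ((le_max_left _ _).trans hd) ho e he
  have e2 := h3 d ((le_max_right _ _).trans hd) e he
  have e3 : |(4 : ℝ) ^ k * ∑ Y ∈ Tf F d e, KY 0 k d e Y| ≤
      δ / 2 * (Nat.card F : ℝ) ^ (2 * d) := by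
    rw [abs_mul, abs_of_pos (by positivity : (0 : ℝ) < 4 ^ k)]
    calc (4 : ℝ) ^ k * |∑ Y ∈ Tf F d e, KY 0 k d e Y|
        ≤ 4 ^ k * (δ / 2 / 4 ^ k * (Nat.card F : ℝ) ^ (2 * d)) :=
          mul_le_mul_of_nonneg_left e2 (by positivity)
      _ = δ / 2 * (Nat.card F : ℝ) ^ (2 * d) := by
          field_simp
  have e4 : ∀ a b c : ℝ, a + b - c = (a - c) + b := fun a b c => by ring
  rw [e4]
  calc _ ≤ |∑ Y ∈ Tf F d e, NYf 0 k d e Y - (Lk 2 k : ℝ) * ((Tf F d e).card : ℝ)| +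
        |(4 : ℝ) ^ k * ∑ Y ∈ Tf F d e, KY 0 k d e Y| := abs_add_le _ _
    _ ≤ δ / 2 * (Nat.card F : ℝ) ^ (2 * d) + δ / 2 * (Nat.card F : ℝ) ^ (2 * d) :=
        add_le_add e1 e3
    _ = δ * (Nat.card F : ℝ) ^ (2 * d) := by ring

theorem mom_one (h2 : (2 : F) ≠ 0) (k : ℕ) {δ : ℝ} (hδ : 0 < δ) :
    ∃ D : ℕ, ∀ d : ℕ, D ≤ d → Odd d → ∀ e : ℕ, 10 * e ≤ d →
      |Em F 1 k d e| ≤ δ * (Nat.card F : ℝ) ^ (2 * d) := by
  obtain ⟨D1, h1⟩ := est1 (F := F) k (half_pos hδ)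
  obtain ⟨D2, h3⟩ := kle h2 1 k (δ := δ / 2 / 4 ^ k) (by positivity)
  refine ⟨max D1 D2, fun d hd ho e he => ?_⟩
  rw [em_split ho]
  have e1 := h1 d ((le_max_left _ _).trans hd) e he
  have e2 := h3 d ((le_max_right _ _).trans hd) e he
  have e3 : |(4 : ℝ) ^ k * ∑ Y ∈ Tf F d e, KY 1 k d e Y| ≤
      δ / 2 * (Nat.card F : ℝ) ^ (2 * d) := by
    rw [abs_mul, abs_of_pos (by positivity : (0 : ℝ) < 4 ^ k)]
    calc (4 : ℝ) ^ k * |∑ Y ∈ Tf F d e, KY 1 k d e Y|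
        ≤ 4 ^ k * (δ / 2 / 4 ^ k * (Nat.card F : ℝ) ^ (2 * d)) :=
          mul_le_mul_of_nonneg_left e2 (by positivity)
      _ = δ / 2 * (Nat.card F : ℝ) ^ (2 * d) := by
          field_simp
  calc _ ≤ |∑ Y ∈ Tf F d e, NYf 1 k d e Y| +
        |(4 : ℝ) ^ k * ∑ Y ∈ Tf F d e, KY 1 k d e Y| := abs_add_le _ _
    _ ≤ δ / 2 * (Nat.card F : ℝ) ^ (2 * d) + δ / 2 * (Nat.card F : ℝ) ^ (2 * d) :=
        add_le_add e1 e3
    _ = δ * (Nat.card F : ℝ) ^ (2 * d) := by ring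

end Pool.Agent.H3.SC
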