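import Pool.Agent.H3.SC.RKS

set_option autoImplicit false

/-!
# [H3 SC NKE] The part that is not killed: estimates for one triple

`NY th k d e Y = sg (th n) * NS / card W ^ k`.  From `SB.pw_main`, `SB.pw_one`, `SB.pw_all` (`|sg| = 1`; for `th = 0` the summand is `sg (MV z)`; `SA.sg = PC.sg`, `sa_sg`; `card W > 0`).
* `nke0`: `¬ Bad`: `|NY 0 - Lk| ≤ err k d`.
* `nke_all`: `|NY th| ≤ errb k d`.
* `nke1`: `|NY 1| ≤ err k d`.
-/

namespace Pool.Agent.H3.SC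

open Polynomial
open Pool.Agent.H94.PC
open Pool.Agent.H94.PS
open Pool.Agent.H94.PN (Lk)
open Pool.Agent.H74.SL (V)
open Pool.Agent.H3
open Pool.Agent.H3.SB (Big Bad err errb)

variable {F : Type} [Field F] [Finite F] {d e : ℕ} {Y : Fin 3 → F[X]}

/-- the normalised sum -/
noncomputable def NY (h : Tr d Y) (th : ZMod 2) (k e : ℕ) : ℝ :=
  sg (th * (nY Y : ZMod 2)) * NS h th k e / (Nat.card (WX Y) : ℝ) ^ k

private theorem card_W_pos (Y : Fin 3 → F[X]) : (0 : ℝ) < (Nat.card (WX Y) : ℝ) := by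
  have : 0 < Nat.card (WX Y) := Nat.card_pos
  exact_mod_cast this

private theorem abs_NS_le (h : Tr d Y) (th : ZMod 2) (k e : ℕ) {B : ℝ}
    (hB : ((SA.FS (fun z : SX Y → SA.V k => SB.NK th d e Y z)).card : ℝ) ≤
      B * (Nat.card (WX Y) : ℝ) ^ k) : |NY h th k e| ≤ B := by
  have hW := card_W_pos Y
  unfold NY
  rw [abs_div, abs_mul, abs_sg, one_mul, abs_of_pos (pow_pos hW k), div_le_iff₀ (pow_pos hW k)]
  refine le_trans ?_ hB
  unfold NS
  refine (Finset.abs_sum_le_sum_abs _ _).trans ?_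
  rw [Finset.sum_congr rfl fun z _ => abs_sg _, Finset.sum_const, nsmul_eq_mul, mul_one]
  have h1 : (SA.FS (fun z : SX Y → V k => z ∈ SA.WV (SB.frm h) k ∧ SB.NK th d e Y z)).card ≤
      (SA.FS (fun z : SX Y → SA.V k => SB.NK th d e Y z)).card := by
    refine Finset.card_le_card fun z hz => ?_
    exact SA.mem_FS.2 (SA.mem_FS.1 hz).2
  exact_mod_cast h1

theorem nke0 (hb : Big d) (hd : Odd d) (he : 2 * e < d) (h : Fm d e Y) (ht : Typ d Y)
    (hB : ¬ Bad d Y) (k : ℕ) : |NY h.1 0 k e - (Lk 2 k : ℝ)| ≤ err k d := by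
  have hW := card_W_pos Y
  have h1 := SB.pw_main hb hd he h ht hB k
  have h2 : NS h.1 0 k e =
      ∑ z ∈ SA.FS (fun z : SX Y → SA.V k => z ∈ SA.WV (SB.frm h.1) k ∧ SB.NK 0 d e Y z),
        SA.sg (SA.MV (SB.frm h.1) z) := by
    unfold NS
    refine Finset.sum_congr rfl fun z _ => ?_
    rw [zero_mul, add_zero, sa_sg]
  rw [← h2] at h1
  have h3 : NY h.1 0 k e - (Lk 2 k : ℝ) =
      (NS h.1 0 k e - (Lk 2 k : ℝ) * (Nat.card (WX Y) : ℝ) ^ k) /
        (Nat.card (WX Y) : ℝ) ^ k := by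
    unfold NY
    rw [zero_mul, sg_zero, one_mul, sub_div, mul_div_assoc, div_self (pow_pos hW k).ne', mul_one]
  rw [h3, abs_div, abs_of_pos (pow_pos hW k), div_le_iff₀ (pow_pos hW k)]
  exact h1

theorem nke1 (hb : Big d) (he : 2 * e < d) (h : Fm d e Y) (ht : Typ d Y) (k : ℕ) :
    |NY h.1 1 k e| ≤ err k d :=
  abs_NS_le h.1 1 k e (SB.pw_one hb he h ht k)

theorem nke_all (hb : Big d) (he : 2 * e < d) (h : Fm d e Y) (ht : Typ d Y) (k : ℕ)
    (th : ZMod 2) : |NY h.1 th k e| ≤ errb k d :=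
  abs_NS_le h.1 th k e (SB.pw_all hb he h ht k th)

end Pool.Agent.H3.SC
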