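import Pool.Agent.H3.SC.TP3

set_option autoImplicit false

/-!
# [H3 SC PHZ] The form in terms of the parts

`Tr d Y`, `z : SX Y → V k`, `f = SB.frm h`.
* `mv_sum`: `MV f z = ∑ p, ∑ r, dotp (z r).1 (z p).2 * mx Y p r`: `MV f z = ∑ l, M (z.1 l) (z.2 l)`, `M x y = bf Y x y = ∑ p, y p * ∑ r, mx Y p r * x r` (`SB.frm_M`), interchange the sums; `dotp a b = ∑ l, a l * b l`.  `bf Y 1 1 = ∑ p, ∑ r, mx Y p r`.
* `lam_px`: for `P ∈ pf (Y i)`, `j ≠ i`: `lam (px Y z j v') P = ∑_{R ∈ pf (Y j), z R = v'} lam R P` (a product of primes prime to `P`: `lam_mul_left`, induction; compare `SB.FCT`); for any `A` prime to `Y i`: `lam A (px Y z i v) = ∑_{P ∈ pf (Y i), z P = v} lam A P`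
  (`js_prod_right`, `js_eq_sg`, `sg_inj`, `sg` of a sum is the product).
* `phz`: split the double sum `∑ p, ∑ r, (dotp (z r).1 (z p).2 + th) * mx Y p r` by the classes `i, j` and the labels `v, v'` of `p, r`: for `i ≠ j`: `∑_{v, v'} (dotp v'.1 v.2 + th) * lam (px j v') (px i v)`; for `i = j` only `p = r` counts (`mx Y p r = 0` for `p ≠ r` in the same class):
  `∑_v (dotp v.1 v.2 + th) * lam (Y (i + 1)) (px i v)`, `SL.q v = dotp v.1 v.2`.
-/

namespace Pool.Agent.H3.SC

open Polynomial
open Pool.Agent.H94.PC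
open Pool.Agent.H94.PS
open Pool.Agent.H94.PN (dotp)
open Pool.Agent.H74.SL (V q)
open Pool.Agent.H3

variable {F : Type} [Field F] [Finite F] {k d : ℕ} {Y : Fin 3 → F[X]}

private theorem lam_one_left {P : F[X]} (hP : P.Monic) : lam 1 P = 0 := by
  apply sg_inj
  rw [← js_eq_sg hP isCoprime_one_left, js_one_left hP, sg_zero]

private theorem lam_one_right (A : F[X]) : lam A 1 = 0 := by
  apply sg_inj
  rw [← js_eq_sg monic_one isCoprime_one_right, js_one_right, sg_zero]

private theorem lam_mul_right {A B B' : F[X]} (hB : B.Monic) (hB' : B'.Monic)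
    (h : IsCoprime A B) (h' : IsCoprime A B') : lam A (B * B') = lam A B + lam A B' := by
  apply sg_inj
  rw [sg_add, ← js_eq_sg hB h, ← js_eq_sg hB' h', ← js_eq_sg (hB.mul hB') (h.mul_right h'),
    js_mul_right A hB hB']

private theorem prod_left {ι : Type} (s : Finset ι) (f : ι → F[X]) {P : F[X]} (hP : P.Monic)
    (hs : ∀ R ∈ s, IsCoprime (f R) P) :
    lam (∏ R ∈ s, f R) P = ∑ R ∈ s, lam (f R) P := by
  classical
  induction s using Finset.induction_on with
  | empty => rw [Finset.prod_empty, Finset.sum_empty, lam_one_left hP]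
  | insert a s ha ih =>
    have h1 : ∀ R ∈ s, IsCoprime (f R) P := fun R hR => hs R (Finset.mem_insert_of_mem hR)
    rw [Finset.prod_insert ha, Finset.sum_insert ha,
      lam_mul_left hP (hs a (Finset.mem_insert_self a s)) (IsCoprime.prod_left h1), ih h1]

private theorem prod_right {ι : Type} (s : Finset ι) (f : ι → F[X]) {A : F[X]}
    (hm : ∀ R ∈ s, (f R).Monic) (hs : ∀ R ∈ s, IsCoprime A (f R)) :
    lam A (∏ R ∈ s, f R) = ∑ R ∈ s, lam A (f R) := by
  classical
  induction s using Finset.induction_on with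
  | empty => rw [Finset.prod_empty, Finset.sum_empty, lam_one_right]
  | insert a s ha ih =>
    have h1 : ∀ R ∈ s, IsCoprime A (f R) := fun R hR => hs R (Finset.mem_insert_of_mem hR)
    have h2 : ∀ R ∈ s, (f R).Monic := fun R hR => hm R (Finset.mem_insert_of_mem hR)
    rw [Finset.prod_insert ha, Finset.sum_insert ha,
      lam_mul_right (hm a (Finset.mem_insert_self a s)) (monic_prod_of_monic _ _ h2)
        (hs a (Finset.mem_insert_self a s)) (IsCoprime.prod_right h1), ih h2 h1]

private theorem lam_ite_left (R : F[X]) {P : F[X]} (hP : P.Monic) (c : Prop) [Decidable c] :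
    lam (if c then R else 1) P = if c then lam R P else 0 := by
  split_ifs
  · rfl
  · exact lam_one_left hP

private theorem lam_ite_right (A R : F[X]) (c : Prop) [Decidable c] :
    lam A (if c then R else 1) = if c then lam A R else 0 := by
  split_ifs
  · rfl
  · exact lam_one_right A

private theorem px_left (h : Tr d Y) (z : SX Y → V k) {i j : Fin 3} (hij : i ≠ j) (v : V k)
    (P : {P // P ∈ pf (Y i)}) : lam (px Y z j v) P.1 =
      ∑ R : {P // P ∈ pf (Y j)}, if z ⟨j, R⟩ = v then lam R.1 P.1 else 0 := by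
  obtain ⟨hm, _, _⟩ := mem_pf' P.2
  unfold px part
  rw [prod_left _ _ hm]
  · exact Finset.sum_congr rfl fun R _ => lam_ite_left _ hm _
  · intro R _
    split_ifs
    · exact (SB.tr_cpr h hij P.2).of_isCoprime_of_dvd_left (mem_pf' R.2).2.2
    · exact isCoprime_one_left

private theorem px_right (z : SX Y → V k) (i : Fin 3) (v : V k) {A : F[X]}
    (hA : ∀ P ∈ pf (Y i), IsCoprime A P) : lam A (px Y z i v) =
      ∑ P : {P // P ∈ pf (Y i)}, if z ⟨i, P⟩ = v then lam A P.1 else 0 := by
  unfold px part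
  rw [prod_right]
  · exact Finset.sum_congr rfl fun R _ => lam_ite_right _ _ _
  · intro R _
    split_ifs
    · exact (mem_pf' R.2).1
    · exact monic_one
  · intro R _
    split_ifs
    · exact hA _ R.2
    · exact isCoprime_one_right

/-- the sum over the labels of the right side -/
private theorem sum_right (z : SX Y → V k) (i : Fin 3) (g : V k → V k → ZMod 2) {A : F[X]}
    (hA : ∀ P ∈ pf (Y i), IsCoprime A P) (v' : V k) :
    ∑ v, g v' v * lam A (px Y z i v) =
      ∑ P : {P // P ∈ pf (Y i)}, g v' (z ⟨i, P⟩) * lam A P.1 := by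
  simp only [px_right z i _ hA, Finset.mul_sum]
  rw [Finset.sum_comm]
  refine Finset.sum_congr rfl fun P _ => ?_
  simp only [mul_ite, mul_zero]
  rw [Finset.sum_ite_eq, if_pos (Finset.mem_univ _)]

private theorem sum_left (h : Tr d Y) (z : SX Y → V k) {i j : Fin 3} (hij : i ≠ j)
    (g : V k → ZMod 2) (P : {P // P ∈ pf (Y i)}) :
    ∑ v', g v' * lam (px Y z j v') P.1 =
      ∑ R : {P // P ∈ pf (Y j)}, g (z ⟨j, R⟩) * lam R.1 P.1 := by
  simp only [px_left h z hij, Finset.mul_sum]
  rw [Finset.sum_comm]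
  refine Finset.sum_congr rfl fun R _ => ?_
  simp only [mul_ite, mul_zero]
  rw [Finset.sum_ite_eq, if_pos (Finset.mem_univ _)]

theorem mv_sum (h : Tr d Y) (z : SX Y → V k) :
    SA.MV (SB.frm h) z = ∑ p, ∑ r, dotp (z r).1 (z p).2 * mx Y p r := by
  unfold SA.MV dotp
  simp only [SB.frm_M, bf, Finset.mul_sum, Finset.sum_mul]
  rw [Finset.sum_comm]
  refine Finset.sum_congr rfl fun p _ => ?_
  rw [Finset.sum_comm]
  refine Finset.sum_congr rfl fun r _ => Finset.sum_congr rfl fun l _ => ?_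
  ring

private theorem bf_one (Y : Fin 3 → F[X]) : bf Y 1 1 = ∑ p, ∑ r, mx Y p r := by
  unfold bf
  refine Finset.sum_congr rfl fun p _ => ?_
  rw [Pi.one_apply, one_mul]
  exact Finset.sum_congr rfl fun r _ => by rw [Pi.one_apply, mul_one]

open Classical in
private theorem mx_split (Y : Fin 3 → F[X]) (p r : SX Y) :
    mx Y p r = (if p.1 = r.1 then 0 else lam r.2.1 p.2.1) +
      (if r = p then lam (Y (p.1 + 1)) p.2.1 else 0) := by
  unfold mx
  by_cases hpr : p = r
  · subst hpr
    simp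
  · have h2 : ¬ r = p := fun h => hpr h.symm
    simp only [if_neg hpr, if_neg h2, add_zero]

theorem phz (h : Tr d Y) (th : ZMod 2) (z : SX Y → V k) :
    SA.MV (SB.frm h) z + th * bf Y 1 1 = phx th Y (px Y z) := by
  classical
  have n1 : ∀ i : Fin 3, i ≠ i + 1 := by decide
  have e1 : SA.MV (SB.frm h) z + th * bf Y 1 1 =
      ∑ p : SX Y, ∑ r : SX Y, (dotp (z r).1 (z p).2 + th) * mx Y p r := by
    rw [mv_sum, bf_one, Finset.mul_sum, ← Finset.sum_add_distrib]
    refine Finset.sum_congr rfl fun p _ => ?_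
    rw [Finset.mul_sum, ← Finset.sum_add_distrib]
    exact Finset.sum_congr rfl fun r _ => by ring
  rw [e1, Fintype.sum_sigma]
  unfold phx
  refine Finset.sum_congr rfl fun i _ => ?_
  rw [Finset.sum_add_distrib]
  have e2 : ∑ v, (q v + th) * lam (Y (i + 1)) (px Y z i v) =
      ∑ P : {P // P ∈ pf (Y i)}, (q (z ⟨i, P⟩) + th) * lam (Y (i + 1)) P.1 :=
    sum_right z i (fun _ v => q v + th) (fun P hP => SB.tr_cpr h (n1 i) hP) 0
  have e3 : ∑ v, ∑ j, ∑ v', (if i = j then 0 else
      (dotp v'.1 v.2 + th) * lam (px Y z j v') (px Y z i v)) =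
      ∑ P : {P // P ∈ pf (Y i)}, ∑ j, ∑ R : {P // P ∈ pf (Y j)}, (if i = j then 0 else
        (dotp (z ⟨j, R⟩).1 (z ⟨i, P⟩).2 + th) * lam R.1 P.1) := by
    rw [Finset.sum_comm]
    conv_rhs => rw [Finset.sum_comm]
    refine Finset.sum_congr rfl fun j _ => ?_
    by_cases hij : i = j
    · simp only [if_pos hij, Finset.sum_const_zero]
    · simp only [if_neg hij]
      have hc : ∀ v' : V k, ∀ P ∈ pf (Y i), IsCoprime (px Y z j v') P := by
        intro v' P hP
        unfold px part
        refine IsCoprime.prod_left fun R _ => ?_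
        split_ifs
        · exact (SB.tr_cpr h hij hP).of_isCoprime_of_dvd_left (mem_pf' R.2).2.2
        · exact isCoprime_one_left
      rw [Finset.sum_comm]
      have e4 : ∀ v' : V k, ∑ v, (dotp v'.1 v.2 + th) * lam (px Y z j v') (px Y z i v) =
          ∑ P : {P // P ∈ pf (Y i)}, (dotp v'.1 (z ⟨i, P⟩).2 + th) *
            lam (px Y z j v') P.1 := fun v' =>
        sum_right z i (fun v' v => dotp v'.1 v.2 + th) (hc v') v'
      simp only [e4]
      rw [Finset.sum_comm]
      refine Finset.sum_congr rfl fun P _ => ?_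
      exact sum_left h z hij (fun v' => dotp v'.1 (z ⟨i, P⟩).2 + th) P
  rw [e2, e3, ← Finset.sum_add_distrib]
  refine Finset.sum_congr rfl fun P _ => ?_
  have e5 : ∀ r : SX Y, (dotp (z r).1 (z ⟨i, P⟩).2 + th) * mx Y ⟨i, P⟩ r =
      (dotp (z r).1 (z ⟨i, P⟩).2 + th) * (if i = r.1 then 0 else lam r.2.1 P.1) +
      (if r = ⟨i, P⟩ then (dotp (z r).1 (z ⟨i, P⟩).2 + th) * lam (Y (i + 1)) P.1 else 0) := by
    intro r
    rw [mx_split, mul_add]
    congr 1
    rw [mul_ite, mul_zero]
  simp only [e5]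
  rw [Finset.sum_add_distrib, Finset.sum_ite_eq', if_pos (Finset.mem_univ _), Fintype.sum_sigma]
  congr 1
  refine Finset.sum_congr rfl fun j _ => Finset.sum_congr rfl fun R _ => ?_
  rw [mul_ite, mul_zero]

end Pool.Agent.H3.SC
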