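import Pool.Agent.H3.SC.Defs
import Pool.Agent.H3.SA.MOM
import Pool.Agent.H3.SA.PAR

set_option autoImplicit false

/-!
# [H3 SC RKS] The rank and the sum over all labellings

`Tr d Y`, `d` odd, `n = nY Y = card (SX Y)` (`SB.card_SX`).
* `card_W_eq`: `4 * card (WX Y) = 2 ^ n`.  The map `x ↦ (dgp Y x 1 - dgp Y x 0, dgp Y x 2 - dgp Y x 0)` to `ZMod 2 × ZMod 2` has kernel `WX Y` and is onto: `dgp Y` of the indicator of the class `i` is `d = 1` at `i` and `0` at the other two (`SB.tr_deg`); so `2 ^ n = card (WX Y) * 4`.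
* `rk_card`: `card (RadX Y) = 2 ^ rkY Y` (`Module.natCard_eq_pow_finrank`).
* `rks`: `SA.mom` for `f = SB.frm h` (`SB.rad_frm`, `SB.frm_W`): `∑_{WV} sg (MV z) = (2 ^ rk) ^ k * card W ^ k`.  `th = 0`: this is the claim.  `th = 1`: `SA.par`: `sg (M 1 1) = (-1) ^ (finrank W + rk)`, `finrank W = n - 2` (from `card_W_eq`; `n ≥ 2`), `M 1 1 = bf Y 1 1` (`SB.frm_M`);
  so `sg (bf Y 1 1) = (-1) ^ (n + rk)`, `sg (n) * sg (bf Y 1 1) = (-1) ^ rk = sg rk`; `sg (a + b) = sg a * sg b`.  (`SA.sg` and `PC.sg` are the same function: `rfl` after unfolding.)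
* `split`: the sum over `WV` is `NS + KS`.
-/

namespace Pool.Agent.H3.SC

open Polynomial
open Pool.Agent.H94.PC
open Pool.Agent.H94.PS
open Pool.Agent.H74.SL (V)
open Pool.Agent.H3

variable {F : Type} [Field F] [Finite F] {d : ℕ} {Y : Fin 3 → F[X]}

theorem sa_sg (a : ZMod 2) : SA.sg a = sg a := rfl

private theorem dgp_add' (Y : Fin 3 → F[X]) (x y : SX Y → ZMod 2) (i : Fin 3) :
    dgp Y (x + y) i = dgp Y x i + dgp Y y i := by
  unfold dgp
  rw [← Finset.sum_add_distrib]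
  exact Finset.sum_congr rfl fun P _ => by rw [Pi.add_apply, add_mul]

private theorem dgp_smul' (Y : Fin 3 → F[X]) (c : ZMod 2) (x : SX Y → ZMod 2) (i : Fin 3) :
    dgp Y (c • x) i = c * dgp Y x i := by
  unfold dgp
  rw [Finset.mul_sum]
  exact Finset.sum_congr rfl fun P _ => by rw [Pi.smul_apply, smul_eq_mul, mul_assoc]

private theorem dgp_ind (h : Tr d Y) (hd : Odd d) (i j : Fin 3) :
    dgp Y (fun p => if p.1 = i then 1 else 0) j = if j = i then 1 else 0 := by
  unfold dgp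
  by_cases hij : j = i
  · rw [if_pos hij]
    have h1 : ∀ P ∈ (Finset.univ : Finset {P // P ∈ pf (Y j)}),
        (if (⟨j, P⟩ : SX Y).1 = i then (1 : ZMod 2) else 0) * (P.1.natDegree : ZMod 2) =
          (P.1.natDegree : ZMod 2) := by
      intro P _
      rw [if_pos hij, one_mul]
    rw [Finset.sum_congr rfl h1, Finset.sum_coe_sort (pf (Y j)) (fun P => (P.natDegree : ZMod 2)),
      ← Nat.cast_sum, SB.tr_deg h j]
    obtain ⟨m, hm⟩ := hd
    rw [hm]
    push_cast
    rw [show (2 : ZMod 2) = 0 from rfl, zero_mul, zero_add]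
  · rw [if_neg hij]
    refine Finset.sum_eq_zero fun P _ => ?_
    show (if j = i then (1 : ZMod 2) else 0) * _ = 0
    rw [if_neg hij, zero_mul]

theorem card_W_eq (h : Tr d Y) (hd : Odd d) : 4 * Nat.card (WX Y) = 2 ^ nY Y := by
  classical
  obtain ⟨φ, hφ⟩ : ∃ φ : (SX Y → ZMod 2) →ₗ[ZMod 2] (ZMod 2 × ZMod 2), ∀ x, φ x =
      (dgp Y x 1 - dgp Y x 0, dgp Y x 2 - dgp Y x 0) := by
    refine ⟨{ toFun := fun x => (dgp Y x 1 - dgp Y x 0, dgp Y x 2 - dgp Y x 0),
              map_add' := fun x y => ?_, map_smul' := fun c x => ?_ }, fun _ => rfl⟩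
    · simp only [dgp_add', Prod.mk_add_mk]
      ext <;> simp <;> ring
    · simp only [dgp_smul', RingHom.id_apply, Prod.smul_mk, smul_eq_mul]
      ext <;> simp <;> ring
  have hker : LinearMap.ker φ = WX Y := by
    ext x
    rw [LinearMap.mem_ker, hφ, Prod.mk_eq_zero, sub_eq_zero, sub_eq_zero]
    constructor
    · rintro ⟨h1, h2⟩ i
      fin_cases i
      · rfl
      · exact h1
      · exact h2
    · intro hx
      exact ⟨hx 1, hx 2⟩
  have h1 := LinearMap.finrank_range_add_finrank_ker φ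
  rw [hker, Module.finrank_fintype_fun_eq_card] at h1
  have hsur : LinearMap.range φ = ⊤ := by
    rw [LinearMap.range_eq_top]
    rintro ⟨a, b⟩
    refine ⟨a • (fun p : SX Y => if p.1 = 1 then 1 else 0) +
      b • (fun p : SX Y => if p.1 = 2 then 1 else 0), ?_⟩
    rw [hφ]
    simp only [dgp_add', dgp_smul', dgp_ind h hd]
    refine Prod.ext ?_ ?_
    · show a * (if (1 : Fin 3) = 1 then 1 else 0) + b * (if (1 : Fin 3) = 2 then 1 else 0) -
        (a * (if (0 : Fin 3) = 1 then 1 else 0) + b * (if (0 : Fin 3) = 2 then 1 else 0)) = a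
      rw [if_pos rfl, if_neg (by decide), if_neg (by decide), if_neg (by decide)]
      ring
    · show a * (if (2 : Fin 3) = 1 then 1 else 0) + b * (if (2 : Fin 3) = 2 then 1 else 0) -
        (a * (if (0 : Fin 3) = 1 then 1 else 0) + b * (if (0 : Fin 3) = 2 then 1 else 0)) = b
      rw [if_neg (by decide), if_pos rfl, if_neg (by decide), if_neg (by decide)]
      ring
  have h2 : Module.finrank (ZMod 2) (LinearMap.range φ) = 2 := by
    rw [hsur, finrank_top, Module.finrank_prod, Module.finrank_self]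
  have h3 : Nat.card (WX Y) = 2 ^ Module.finrank (ZMod 2) (WX Y) := by
    rw [Module.natCard_eq_pow_finrank (K := ZMod 2), Nat.card_zmod]
  have h4 : Fintype.card (SX Y) = nY Y := by
    rw [← Nat.card_eq_fintype_card, SB.card_SX]
    unfold nY
    rw [Fin.sum_univ_three]
  rw [h3, ← h4, ← h1, h2, pow_add]
  norm_num

private theorem fr_W (h : Tr d Y) (hd : Odd d) :
    Module.finrank (ZMod 2) (WX Y) + 2 = nY Y := by
  have h1 := card_W_eq h hd
  have h3 : Nat.card (WX Y) = 2 ^ Module.finrank (ZMod 2) (WX Y) := by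
    rw [Module.natCard_eq_pow_finrank (K := ZMod 2), Nat.card_zmod]
  rw [h3, show (4 : ℕ) = 2 ^ 2 from rfl, ← pow_add] at h1
  have h4 := Nat.pow_right_injective le_rfl h1
  omega

private theorem sg_nat (n : ℕ) : sg (n : ZMod 2) = (-1) ^ n := by
  have h := sg_mul_natCast 1 n
  rw [one_mul, sg_one] at h
  exact h

private theorem sg_par (h : Tr d Y) (hd : Odd d) (th : ZMod 2) :
    sg (th * (rkY Y : ZMod 2)) = sg (th * (nY Y : ZMod 2)) * sg (th * bf Y 1 1) := by
  rcases SA.z2 th with rfl | rfl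
  · rw [zero_mul, zero_mul, zero_mul, sg_zero, mul_one]
  · rw [one_mul, one_mul, one_mul, sg_nat, sg_nat]
    have h1 := SA.par (SB.frm h)
    rw [SB.rad_frm h hd] at h1
    have h2 : sg (bf Y 1 1) = (-1 : ℝ) ^ (Module.finrank (ZMod 2) (WX Y) + rkY Y) := h1
    rw [h2, ← fr_W h hd, ← pow_add]
    have h3 : Module.finrank (ZMod 2) (WX Y) + 2 + (Module.finrank (ZMod 2) (WX Y) + rkY Y) =
        2 * (Module.finrank (ZMod 2) (WX Y) + 1) + rkY Y := by ring
    rw [h3, pow_add, pow_mul]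
    norm_num

private theorem split (h : Tr d Y) (th : ZMod 2) (k e : ℕ) :
    NS h th k e + KS h th k e =
      ∑ z ∈ SA.FS (fun z : SX Y → V k => z ∈ SA.WV (SB.frm h) k),
        sg (SA.MV (SB.frm h) z + th * bf Y 1 1) := by
  classical
  unfold NS KS
  rw [← Finset.sum_filter_add_sum_filter_not (SA.FS (fun z : SX Y → V k =>
    z ∈ SA.WV (SB.frm h) k)) (fun z => SB.NK th d e Y z)]
  congr 1
  · refine Finset.sum_congr ?_ fun _ _ => rfl
    ext z
    rw [Finset.mem_filter, SA.mem_FS, SA.mem_FS]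
  · refine Finset.sum_congr ?_ fun _ _ => rfl
    ext z
    rw [Finset.mem_filter, SA.mem_FS, SA.mem_FS]

theorem rks (h : Tr d Y) (hd : Odd d) (th : ZMod 2) (k e : ℕ) :
    ((2 : ℝ) ^ k) ^ rkY Y * sg (th * (rkY Y : ZMod 2)) * (Nat.card (WX Y) : ℝ) ^ k =
      sg (th * (nY Y : ZMod 2)) * (NS h th k e + KS h th k e) := by
  have h1 := SA.mom (SB.frm h) k
  rw [SB.rad_frm h hd, SB.frm_W] at h1
  have h2 : (Nat.card (RadX Y) : ℝ) = 2 ^ rkY Y := by
    have h3 : Nat.card (RadX Y) = 2 ^ Module.finrank (ZMod 2) (RadX Y) := by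
      rw [Module.natCard_eq_pow_finrank (K := ZMod 2), Nat.card_zmod]
    rw [h3]
    push_cast
    rfl
  rw [h2] at h1
  have h4 : NS h th k e + KS h th k e =
      sg (th * bf Y 1 1) * (((2 : ℝ) ^ rkY Y) ^ k * (Nat.card (WX Y) : ℝ) ^ k) := by
    rw [split, ← h1, Finset.mul_sum]
    refine Finset.sum_congr rfl fun z _ => ?_
    rw [sg_add, sa_sg, mul_comm]
  rw [h4, sg_par h hd th]
  have h5 : ((2 : ℝ) ^ k) ^ rkY Y = ((2 : ℝ) ^ rkY Y) ^ k := by
    rw [← pow_mul, ← pow_mul, mul_comm]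
  rw [h5]
  ring

end Pool.Agent.H3.SC
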