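import Pool.Agent.H3.SC.Defs

set_option autoImplicit false

/-!
# [H3 SC TP3] Labellings and labelled triples

Compare `H94.PC.Tup` (`part`, `tup`), which is the case of one monic polynomial.
* `px_basic`: `part_monic`, `part_squarefree`; `part` divides `∏_{P ∈ pf (Y i)} P`, which divides `Y i` (`SB.tr_fac`), so its degree is `≤ d`.
* `px_prod`: `∏ v, px Y z i v = ∏_{P ∈ pf (Y i)} P` (as in `part_prod`), so `Y i = C (leadingCoeff) * ∏ v, px Y z i v`.
* `px_pf`: `P ∈ pf (px Y z i v) ↔ ∃ h : P ∈ pf (Y i), z ⟨i, ⟨P, h⟩⟩ = v`.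
* `tp3`: fix `Y ∈ S`.  The labellings `z` are in bijection to the pairs `(c, x)` with `TY c x = Y` by `z ↦ (leading coefficients of the Y i, px Y z)`.  Injective: `px_pf`.  Surjective: if `TY c x = Y` then `c i` is the leading coefficient (`∏ v, (x i v).1` is monic) and each `P ∈ pf (Y i)` divides exactly one `x i v` (`Y i` is squarefree);
  `z ⟨i, P⟩` is this `v`; then `px Y z i v = x i v` (the same primes, both monic squarefree: `prod_pf`, `pf` of a product of primes as in `Tup`).  Then sum over `Y ∈ S` (`Finset.sum_comm`, `Finset.sum_ite_eq`), as at the end of `tup`.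
-/

namespace Pool.Agent.H3.SC

open Polynomial
open Pool.Agent.H94.PC
open Pool.Agent.H94.PS
open Pool.Agent.H74.SL (V)
open Pool.Agent.H3

variable {F : Type} [Field F] [Finite F] {k d : ℕ} {Y : Fin 3 → F[X]}

/-- the set of the primes of `D` with value `v` -/
private noncomputable def tS {κ : Type} [DecidableEq κ] (D : F[X]) (v : pf D → κ) (i : κ) :
    Finset F[X] :=
  (Finset.univ.filter (fun P : pf D => v P = i)).map (Function.Embedding.subtype _)

private theorem tS_mem {κ : Type} [DecidableEq κ] {D : F[X]} {v : pf D → κ} {i : κ} {P : F[X]} :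
    P ∈ tS D v i ↔ ∃ h : P ∈ pf D, v ⟨P, h⟩ = i := by
  unfold tS
  rw [Finset.mem_map]
  constructor
  · rintro ⟨Q, hQ, rfl⟩
    rw [Finset.mem_filter] at hQ
    exact ⟨Q.2, hQ.2⟩
  · rintro ⟨h, hv⟩
    exact ⟨⟨P, h⟩, Finset.mem_filter.mpr ⟨Finset.mem_univ _, hv⟩, rfl⟩

private theorem tS_part {κ : Type} [Fintype κ] [DecidableEq κ] (D : F[X]) (v : pf D → κ)
    (i : κ) : part D v i = ∏ P ∈ tS D v i, P := by
  unfold part tS
  rw [Finset.prod_map, Finset.prod_filter]
  rfl

private theorem tS_irr {κ : Type} [DecidableEq κ] (D : F[X]) (v : pf D → κ) (i : κ) :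
    ∀ P ∈ tS D v i, P.Monic ∧ Irreducible P := by
  intro P hP
  obtain ⟨h, _⟩ := tS_mem.mp hP
  exact ⟨(mem_pf' h).1, (mem_pf' h).2.1⟩

private theorem tS_pf {κ : Type} [Fintype κ] [DecidableEq κ] (D : F[X]) (v : pf D → κ)
    (i : κ) : pf (part D v i) = tS D v i := by
  rw [tS_part]
  exact pf_prod_irr _ (tS_irr D v i)

theorem px_pf (Y : Fin 3 → F[X]) (z : SX Y → V k) (i : Fin 3) (v : V k) (P : F[X]) :
    P ∈ pf (px Y z i v) ↔ ∃ h : P ∈ pf (Y i), z ⟨i, ⟨P, h⟩⟩ = v := by
  unfold px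
  rw [tS_pf]
  exact tS_mem

theorem px_basic (h : Tr d Y) (z : SX Y → V k) (i : Fin 3) (v : V k) :
    (px Y z i v).Monic ∧ Squarefree (px Y z i v) ∧ (px Y z i v).natDegree ≤ d := by
  refine ⟨part_monic _ _ _, part_squarefree _ _ _, ?_⟩
  unfold px
  rw [tS_part, natDegree_prod_of_monic _ _ fun P hP => (tS_irr _ _ _ P hP).1]
  calc ∑ P ∈ tS (Y i) (fun P => z ⟨i, P⟩) v, P.natDegree ≤ ∑ P ∈ pf (Y i), P.natDegree :=
        Finset.sum_le_sum_of_subset fun P hP => (tS_mem.1 hP).1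
    _ = d := SB.tr_deg h i

private theorem px_prod' (Y : Fin 3 → F[X]) (z : SX Y → V k) (i : Fin 3) :
    ∏ v, px Y z i v = ∏ P ∈ pf (Y i), P := by
  unfold px part
  rw [Finset.prod_comm]
  have h1 : ∀ P ∈ (Finset.univ : Finset (pf (Y i))),
      (∏ v : V k, if z ⟨i, P⟩ = v then P.1 else 1) = P.1 := by
    intro P _
    rw [Finset.prod_ite_eq, if_pos (Finset.mem_univ _)]
  rw [Finset.prod_congr rfl h1]
  exact Finset.prod_coe_sort (pf (Y i)) (fun P => P)

theorem px_prod (h : Tr d Y) (z : SX Y → V k) (i : Fin 3) :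
    Y i = C (Y i).leadingCoeff * ∏ v, px Y z i v := by
  rw [px_prod']
  exact SB.tr_fac h i

open Classical in
private theorem tp3_fix (h : Tr d Y) (G : (Fin 3 → F[X]) → (Fin 3 → V k → F[X]) → ℝ) :
    ∑ z : SX Y → V k, G Y (px Y z) =
      ∑ c ∈ CF F, ∑ x : Fin 3 → V k → Mn F d,
        if TY c x = Y then G Y (fun i v => (x i v).1) else 0 := by
  rw [← Finset.sum_product' (f := fun (c : Fin 3 → F) (x : Fin 3 → V k → Mn F d) =>
    if TY c x = Y then G Y (fun i v => (x i v).1) else 0), ← Finset.sum_filter]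
  refine Finset.sum_bij (fun (z : SX Y → V k) _ => ((fun i => (Y i).leadingCoeff, fun i v =>
      ⟨px Y z i v, px_basic h z i v⟩) : (Fin 3 → F) × (Fin 3 → V k → Mn F d))) ?_ ?_ ?_ ?_
  · intro z _
    rw [Finset.mem_filter, Finset.mem_product]
    refine ⟨⟨mem_CF _, Finset.mem_univ _⟩, ?_⟩
    funext i
    exact (px_prod h z i).symm
  · intro z _ z' _ hzz
    funext p
    obtain ⟨i, P⟩ := p
    have h1 : px Y z i (z ⟨i, P⟩) = px Y z' i (z ⟨i, P⟩) :=
      congrArg Subtype.val (congrFun (congrFun (congrArg Prod.snd hzz) i) (z ⟨i, P⟩))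
    have h2 : P.1 ∈ pf (px Y z i (z ⟨i, P⟩)) := (px_pf Y z i _ _).2 ⟨P.2, rfl⟩
    rw [h1, px_pf] at h2
    obtain ⟨_, h3⟩ := h2
    exact h3.symm
  · rintro ⟨c, x⟩ hx
    rw [Finset.mem_filter] at hx
    have hTY : ∀ i, C (c i) * ∏ v, (x i v).1 = Y i := fun i => congrFun hx.2 i
    have hmon : ∀ i, (∏ v, (x i v).1).Monic := fun i =>
      monic_prod_of_monic _ _ fun v _ => (x i v).2.1
    have hlc : ∀ i, (Y i).leadingCoeff = c i := by
      intro i
      rw [← hTY i, leadingCoeff_mul, leadingCoeff_C, (hmon i).leadingCoeff, mul_one]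
    have hc0 : ∀ i, c i ≠ 0 := fun i => by
      rw [← hlc i]
      exact leadingCoeff_ne_zero.2 (SB.tr_ne h i)
    have hsq : ∀ i, Squarefree (Y i) := by
      intro i
      have h1 := squarefree_mul_iff.1 h.sqf
      have h2 := squarefree_mul_iff.1 h1.2.1
      fin_cases i
      · exact h2.2.1
      · exact h2.2.2
      · exact h1.2.2
    have hch : ∀ p : SX Y, ∃ v : V k, p.2.1 ∣ (x p.1 v).1 := by
      rintro ⟨i, P⟩
      have h1 := mem_pf' P.2
      have h2 : P.1 ∣ C (c i) * ∏ v, (x i v).1 := by rw [hTY i]; exact h1.2.2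
      have h3 : P.1 ∣ ∏ v, (x i v).1 := by
        have hu : IsUnit (C (c i)) := isUnit_C.2 (IsUnit.mk0 _ (hc0 i))
        exact (hu.dvd_mul_left).1 h2
      obtain ⟨v, _, hv⟩ := (h1.2.1.prime).exists_mem_finset_dvd h3
      exact ⟨v, hv⟩
    choose z hz using hch
    refine ⟨z, Finset.mem_univ _, ?_⟩
    refine Prod.ext (funext fun i => hlc i) (funext fun i => funext fun v => Subtype.ext ?_)
    show px Y z i v = (x i v).1
    have hset : pf (px Y z i v) = pf (x i v).1 := by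
      ext P
      rw [px_pf]
      have hxv0 : (x i v).1 ≠ 0 := (x i v).2.1.ne_zero
      constructor
      · rintro ⟨hP, hv⟩
        have h4 := mem_pf' hP
        rw [mem_pf hxv0]
        refine ⟨h4.1, h4.2.1, ?_⟩
        have h5 := hz ⟨i, ⟨P, hP⟩⟩
        rw [hv] at h5
        exact h5
      · intro hP
        have h4 := mem_pf' hP
        have hPY : P ∈ pf (Y i) := by
          rw [mem_pf (SB.tr_ne h i)]
          refine ⟨h4.1, h4.2.1, ?_⟩
          rw [← hTY i]
          exact (h4.2.2.trans (Finset.dvd_prod_of_mem (fun v => (x i v).1)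
            (Finset.mem_univ v))).mul_left _
        refine ⟨hPY, ?_⟩
        by_contra hne
        have h5 : P ∣ (x i (z ⟨i, ⟨P, hPY⟩⟩)).1 := hz ⟨i, ⟨P, hPY⟩⟩
        have h6 : P * P ∣ Y i := by
          rw [← hTY i, ← Finset.mul_prod_erase _ _ (Finset.mem_univ v)]
          refine Dvd.dvd.mul_left ?_ _
          apply mul_dvd_mul h4.2.2
          refine h5.trans ?_
          exact Finset.dvd_prod_of_mem (fun j => (x i j).1)
            (Finset.mem_erase.mpr ⟨hne, Finset.mem_univ _⟩)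
        exact h4.2.1.not_isUnit (hsq i P h6)
    have b := px_basic h z i v
    rw [← prod_pf b.1 b.2.1, hset, prod_pf (x i v).2.1 (x i v).2.2.1]
  · intro z _
    rfl

open Classical in
theorem tp3 (k d : ℕ) (S : Finset (Fin 3 → F[X])) (hS : ∀ Y ∈ S, Tr d Y)
    (G : (Fin 3 → F[X]) → (Fin 3 → V k → F[X]) → ℝ) :
    ∑ Y ∈ S, ∑ z : SX Y → V k, G Y (px Y z) =
      ∑ c ∈ CF F, ∑ x : Fin 3 → V k → Mn F d,
        if TY c x ∈ S then G (TY c x) (fun i v => (x i v).1) else 0 := by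
  rw [Finset.sum_congr rfl fun Y hY => tp3_fix (hS Y hY) G, Finset.sum_comm]
  refine Finset.sum_congr rfl fun c _ => ?_
  rw [Finset.sum_comm]
  refine Finset.sum_congr rfl fun x _ => ?_
  rw [Finset.sum_ite_eq]

end Pool.Agent.H3.SC
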